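import Pool.Agent.U376.RC.Sub
import Pool.Agent.N922.PQ.Stm2

/-!
# Many curves of the family in a residue class and in a part of the box
(helper376, after `N615/PV/Fam2.lean`)
-/

set_option autoImplicit false
set_option linter.all false

open scoped Classical
open Filter Topology

namespace Pool.Agent.U376.RC

open Pool.Agent.N922.PQ Pool.Agent.N456.PQ

theorem crt2 {x y : ℤ} (h : IsCoprime x y) (a b : ℤ) : ∃ r : ℤ, x ∣ r - a ∧ y ∣ r - b := by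
  obtain ⟨u, v, huv⟩ := h
  refine ⟨b * (u * x) + a * (v * y), ⟨b * u - a * u, ?_⟩, ⟨a * v - b * v, ?_⟩⟩
  · have e : v * y = 1 - u * x := by linarith
    rw [e]; ring
  · have e : u * x = 1 - v * y := by linarith
    rw [e]; ring

theorem dsc_congr {x a b a' b' : ℤ} (ha : x ∣ a - a') (hb : x ∣ b - b') (h : x ∣ dsc a b) :
    x ∣ dsc a' b' := by
  have e1 : x ∣ a ^ 3 - a' ^ 3 := ha.trans (sub_dvd_pow_sub_pow _ _ 3)
  have e2 : x ∣ b ^ 2 - b' ^ 2 := hb.trans (sub_dvd_pow_sub_pow _ _ 2)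
  have e3 := dvd_sub h (dvd_add (e1.mul_left 4) (e2.mul_left 27))
  have e : dsc a b - (4 * (a ^ 3 - a' ^ 3) + 27 * (b ^ 2 - b' ^ 2)) = dsc a' b' := by
    unfold dsc; ring
  rwa [e] at e3

theorem dvd_tr {x a b c : ℤ} (h1 : x ∣ a - b) (h2 : x ∣ b - c) : x ∣ a - c := by
  have := dvd_add h1 h2
  rwa [sub_add_sub_cancel] at this

/-- a prime number which divides a product of primes is one of them -/
theorem mem_of_dvd {W : Finset ℤ} (hW : ∀ Q ∈ W, IsPr Q) {p : ℕ} (hp : p.Prime)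
    (h : (p : ℤ) ∣ ∏ Q ∈ W, Q) : (p : ℤ) ∈ W := by
  have hpp := Nat.prime_iff_prime_int.1 hp
  rw [hpp.dvd_finsetProd_iff] at h
  obtain ⟨Q, hQ, hpQ⟩ := h
  have h3 := (hpp.dvd_prime_iff_associated (hW Q hQ).2).1 hpQ
  have h4 := Int.eq_of_associated_of_nonneg h3 (by positivity) (hW Q hQ).1.le
  rw [h4]
  exact hQ

/-- Many curves of the family in a residue class and in a part of the box. -/
theorem fam3 {T : Finset ℤ} {a0 b0 : ℤ} (hT : GoodT T (fun _ => a0) (fun _ => b0))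
    (h4 : (4 : ℤ) ∣ a0 - b0) {N : ℤ} (hN : 0 < N)
    (hsq : ∀ p : ℕ, p.Prime → (p : ℤ) ∣ N → ¬ (p : ℤ) ^ 2 ∣ dsc a0 b0)
    {u u' v v' : ℝ} (hu0 : 0 ≤ u) (hu : u < u') (hu1 : u' ≤ 1) (hv0 : -1 ≤ v) (hv : v < v')
    (hv1 : v' ≤ 1) :
    ∃ (K : ℕ) (c : ℝ), 0 < c ∧ ∀ (S : Finset ℤ) (s : ℤ → ℤ), GoodS S s → Disjoint S T →
      (∀ Q ∈ S, (K : ℤ) < Q) → ∃ X₀ : ℕ, ∀ X ≥ X₀,
    c * (X : ℝ) ^ 5 ≤ ((∏ Q ∈ S, (Q : ℝ) ^ 2)) *
      ({p : ℤ × ℤ | (Fam X S s T (fun _ => a0) (fun _ => b0) p.1 p.2 ∧ (4 : ℤ) ∣ p.1 - p.2) ∧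
        (N ∣ p.1 - a0 ∧ N ∣ p.2 - b0) ∧ InSub X u u' v v' p}.ncard : ℝ) := by
  obtain ⟨δ, hδ⟩ : ∃ δ : ℝ, δ = (u' - u) * (v' - v) := ⟨_, rfl⟩
  have hδ0 : 0 < δ := by
    rw [hδ]
    exact mul_pos (by linarith) (by linarith)
  obtain ⟨K₁, hK₁⟩ := exists_nat_ge (24 / δ)
  obtain ⟨K, hKe⟩ : ∃ K : ℕ, K = max 4 (max K₁ N.toNat) := ⟨_, rfl⟩
  have hK4 : 4 ≤ K := by rw [hKe]; exact le_max_left _ _
  have hKK₁ : K₁ ≤ K := by rw [hKe]; exact (le_max_left _ _).trans (le_max_right _ _)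
  have hKN : N ≤ K := by
    have h1 : N.toNat ≤ K := by rw [hKe]; exact (le_max_right _ _).trans (le_max_right _ _)
    omega
  have hK24 : 24 ≤ (u' - u) * (v' - v) * K := by
    rw [← hδ]
    have h1 : 24 / δ ≤ (K : ℝ) := hK₁.trans (by exact_mod_cast hKK₁)
    rw [div_le_iff₀ hδ0] at h1
    linarith
  -- the modulus
  obtain ⟨PT, hPT⟩ : ∃ PT : ℤ, PT = ∏ P ∈ T, P := ⟨_, rfl⟩
  have hPT0 : 0 < PT := by
    rw [hPT]
    exact Finset.prod_pos fun P hP => (hT.2.2 P hP).1.1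
  obtain ⟨L, hL⟩ : ∃ L : ℤ, L = 4 * N ^ 2 * PT := ⟨_, rfl⟩
  have hL0 : 0 < L := by rw [hL]; positivity
  have hTL : ∀ P ∈ T, P ∣ L := by
    intro P hP
    rw [hL, hPT]
    exact (Finset.dvd_prod_of_mem (fun P : ℤ => P) hP).mul_left _
  have h4L : (4 : ℤ) ∣ L := ⟨N ^ 2 * PT, by rw [hL]; ring⟩
  have hNL : N ^ 2 ∣ L := ⟨4 * PT, by rw [hL]; ring⟩
  obtain ⟨R, hR⟩ : ∃ R : Finset ℕ, R = (Finset.range (K + 1)).filter fun p : ℕ =>
    p.Prime ∧ ¬ (p : ℤ) ∣ L := ⟨_, rfl⟩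
  have hRm : ∀ p : ℕ, p ∈ R ↔ p ≤ K ∧ p.Prime ∧ ¬ (p : ℤ) ∣ L := by
    intro p
    rw [hR, Finset.mem_filter, Finset.mem_range, Nat.lt_succ_iff]
  obtain ⟨PR, hPR⟩ : ∃ PR : ℤ, PR = ∏ p ∈ R, (p : ℤ) := ⟨_, rfl⟩
  have hPR0 : 0 < PR := by
    rw [hPR]
    refine Finset.prod_pos fun p hp => ?_
    exact_mod_cast ((hRm p).1 hp).2.1.pos
  have hcLR : IsCoprime L PR := by
    rw [hPR]
    refine IsCoprime.prod_right fun p hp => ?_
    rw [isCoprime_comm]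
    exact (Nat.prime_iff_prime_int.1 ((hRm p).1 hp).2.1).coprime_iff_not_dvd.2 ((hRm p).1 hp).2.2
  refine ⟨K, 1 / 2 * δ * ((((L * PR : ℤ)) : ℝ)⁻¹ ^ 2), by
    have : (0 : ℝ) < ((L * PR : ℤ) : ℝ) := by exact_mod_cast mul_pos hL0 hPR0
    positivity, ?_⟩
  intro S s hS hST hSK
  have hSpos : ∀ Q ∈ S, (0 : ℝ) < (Q : ℝ) ^ 2 := by
    intro Q hQ
    have : (0 : ℝ) < Q := by exact_mod_cast (hS Q hQ).1.1
    positivity
  have hSprod : 0 < ∏ Q ∈ S, (Q : ℝ) ^ 2 := Finset.prod_pos hSpos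
  obtain ⟨PS, hPS⟩ : ∃ PS : ℤ, PS = ∏ Q ∈ S, Q := ⟨_, rfl⟩
  have hPS0 : 0 < PS := by
    rw [hPS]
    exact Finset.prod_pos fun Q hQ => (hS Q hQ).1.1
  have hSPS : ∀ Q ∈ S, Q ∣ PS := by
    intro Q hQ
    rw [hPS]
    exact Finset.dvd_prod_of_mem (fun Q : ℤ => Q) hQ
  -- the primes in `S` do not divide `L * PR`
  have hcS : IsCoprime (L * PR) PS := by
    rw [hPS]
    refine IsCoprime.prod_right fun Q hQ => ?_
    obtain ⟨hQ0, hQp⟩ := (hS Q hQ).1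
    have hQK := hSK Q hQ
    rw [isCoprime_comm]
    refine hQp.coprime_iff_not_dvd.2 fun h => ?_
    rcases hQp.dvd_or_dvd h with h1 | h1
    · rw [hL] at h1
      rcases hQp.dvd_or_dvd h1 with h2 | h2
      · rcases hQp.dvd_or_dvd h2 with h3 | h3
        · have := Int.le_of_dvd (by norm_num) h3
          omega
        · have := Int.le_of_dvd hN (hQp.dvd_of_dvd_pow h3)
          omega
      · rw [hPT, hQp.dvd_finsetProd_iff] at h2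
        obtain ⟨P, hP, hQP⟩ := h2
        have h3 := (hQp.dvd_prime_iff_associated (hT.2.2 P hP).1.2).1 hQP
        have h4 := Int.eq_of_associated_of_nonneg h3 hQ0.le (hT.2.2 P hP).1.1.le
        exact Finset.disjoint_left.1 hST hQ (h4 ▸ hP)
    · rw [hPR, hQp.dvd_finsetProd_iff] at h1
      obtain ⟨p, hp, hQP⟩ := h1
      have h2 := (hRm p).1 hp
      have h3 := Int.le_of_dvd (by exact_mod_cast h2.2.1.pos) hQP
      have h4 : (p : ℤ) ≤ K := by exact_mod_cast h2.1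
      omega
  obtain ⟨rS, hrS⟩ := crt (fun Q hQ => (hS Q hQ).1) s
  obtain ⟨α₁, hα₁L, hα₁R⟩ := crt2 hcLR a0 1
  obtain ⟨α₀, hα₀1, hα₀S⟩ := crt2 hcS α₁ rS
  obtain ⟨β₁, hβ₁L, hβ₁R⟩ := crt2 hcLR b0 0
  obtain ⟨β₀, hβ₀1, hβ₀S⟩ := crt2 hcS β₁ 0
  have hαL : L ∣ α₀ - a0 := dvd_tr ((dvd_mul_right L PR).trans hα₀1) hα₁L
  have hαR : PR ∣ α₀ - 1 := dvd_tr ((dvd_mul_left PR L).trans hα₀1) hα₁R
  have hαS : ∀ Q ∈ S, Q ∣ α₀ - s Q := fun Q hQ => dvd_tr ((hSPS Q hQ).trans hα₀S) (hrS Q hQ)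
  have hβL : L ∣ β₀ - b0 := dvd_tr ((dvd_mul_right L PR).trans hβ₀1) hβ₁L
  have hβR : PR ∣ β₀ - 0 := dvd_tr ((dvd_mul_left PR L).trans hβ₀1) hβ₁R
  have hβS : ∀ Q ∈ S, Q ∣ β₀ - 0 := fun Q hQ => (hSPS Q hQ).trans hβ₀S
  obtain ⟨m, hm⟩ : ∃ m : ℤ, m = L * PR * PS := ⟨_, rfl⟩
  have hm0 : 0 < m := by rw [hm]; positivity
  have hLm : L ∣ m := ⟨PR * PS, by rw [hm]; ring⟩
  have hRm' : PR ∣ m := ⟨L * PS, by rw [hm]; ring⟩
  have hSm : ∀ Q ∈ S, Q ∣ m := fun Q hQ => (hSPS Q hQ).trans ⟨L * PR, by rw [hm]; ring⟩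
  -- no prime divisor of `m` and no small prime has a square which divides the discriminant
  have hdv : ∀ a b : ℤ, m ∣ a - α₀ → m ∣ b - β₀ → ∀ p : ℕ, p.Prime → (p : ℤ) ^ 2 ∣ dsc a b →
      K < p ∧ IsCoprime m (p : ℤ) := by
    intro a b ha hb p hp hpd
    have hpp := Nat.prime_iff_prime_int.1 hp
    have hpd1 : (p : ℤ) ∣ dsc a b := (dvd_pow_self _ two_ne_zero).trans hpd
    have haL : L ∣ a - a0 := dvd_tr (hLm.trans ha) hαL
    have hbL : L ∣ b - b0 := dvd_tr (hLm.trans hb) hβL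
    have hT' : ∀ P ∈ T, (p : ℤ) ≠ P := by
      intro P hP he
      have h1 : (p : ℤ) ∣ dsc a0 b0 :=
        dsc_congr ((he ▸ hTL P hP).trans haL) ((he ▸ hTL P hP).trans hbL) hpd1
      obtain ⟨z, hz⟩ := root_of (P := (p : ℤ)) ⟨by exact_mod_cast hp.pos, hpp⟩ h1
      rw [he] at hz
      exact (hT.2.2 P hP).2 z hz
    have h1 : ¬ (p : ℤ) ∣ L := by
      intro h
      rw [hL] at h
      rcases hpp.dvd_or_dvd h with h2 | h2
      · rcases hpp.dvd_or_dvd h2 with h3 | h3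
        · have h5 : (p : ℤ) ∣ 2 := by
            have e : (4 : ℤ) = 2 ^ 2 := by norm_num
            rw [e] at h3
            exact hpp.dvd_of_dvd_pow h3
          have h6 := (hpp.dvd_prime_iff_associated Int.prime_two).1 h5
          exact hT' 2 hT.1 (Int.eq_of_associated_of_nonneg h6 (by positivity) (by norm_num))
        · have h5 : (p : ℤ) ∣ N := hpp.dvd_of_dvd_pow h3
          apply hsq p hp h5
          have h6 : (p : ℤ) ^ 2 ∣ L := (pow_dvd_pow_of_dvd h5 2).trans hNL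
          exact dsc_congr (h6.trans haL) (h6.trans hbL) hpd
      · rw [hPT] at h2
        exact hT' _ (mem_of_dvd (fun P hP => (hT.2.2 P hP).1) hp h2) rfl
    have h2 : ¬ (p : ℤ) ∣ PR := by
      intro h
      have haR : (p : ℤ) ∣ a - 1 := dvd_tr ((h.trans hRm').trans ha) (h.trans hαR)
      have hbR : (p : ℤ) ∣ b - 0 := dvd_tr ((h.trans hRm').trans hb) (h.trans hβR)
      have h3 := dsc_congr haR hbR hpd1
      have e : dsc 1 0 = 4 := by unfold dsc; norm_num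
      rw [e] at h3
      exact h1 (h3.trans h4L)
    have h3 : ¬ (p : ℤ) ∣ PS := by
      intro h
      rw [hPS] at h
      have hpS := mem_of_dvd (fun Q hQ => (hS Q hQ).1) hp h
      obtain ⟨-, h8, hz⟩ := hS _ hpS
      have hbS : (p : ℤ) ∣ b - 0 := dvd_tr ((hSm _ hpS).trans hb) (hβS _ hpS)
      have haS : (p : ℤ) ∣ a - s p := dvd_tr ((hSm _ hpS).trans ha) (hαS _ hpS)
      have h9 := dsc_congr haS hbS hpd1
      have e : dsc (s p) 0 = 4 * (s p) ^ 3 := by unfold dsc; ring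
      rw [e] at h9
      have h10 : (p : ℤ) ∣ s p := by
        rcases hpp.dvd_or_dvd h9 with h5 | h5
        · exfalso
          exact h1 (h5.trans h4L)
        · exact hpp.dvd_of_dvd_pow h5
      apply hz 0
      rwa [zero_pow two_ne_zero, zero_add]
    constructor
    · by_contra hlt
      push Not at hlt
      apply h2
      rw [hPR]
      exact Finset.dvd_prod_of_mem (fun p : ℕ => (p : ℤ)) ((hRm p).2 ⟨hlt, hp, h1⟩)
    · rw [isCoprime_comm]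
      apply hpp.coprime_iff_not_dvd.2
      intro h
      rw [hm] at h
      rcases hpp.dvd_or_dvd h with h5 | h5
      · rcases hpp.dvd_or_dvd h5 with h6 | h6
        · exact h1 h6
        · exact h2 h6
      · exact h3 h5
  have hgood := good_geK hm0 α₀ β₀ hu0 hu hu1 hv0 hv hv1 K hK4 hK24 hdv
  rw [eventually_atTop] at hgood
  obtain ⟨X₀, hX₀⟩ := hgood
  refine ⟨X₀, fun X hX => ?_⟩
  have h1 := hX₀ X hX
  set Z : Set (ℤ × ℤ) := {p : ℤ × ℤ | (Fam X S s T (fun _ => a0) (fun _ => b0) p.1 p.2 ∧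
    (4 : ℤ) ∣ p.1 - p.2) ∧ (N ∣ p.1 - a0 ∧ N ∣ p.2 - b0) ∧ InSub X u u' v v' p} with hZ
  have hsub : (((Bx X m α₀ β₀).filter fun q => InSub X u u' v v' q ∧
      Squarefree (dsc q.1 q.2) : Finset (ℤ × ℤ)) : Set (ℤ × ℤ)) ⊆ Z := by
    intro q hq
    rw [Finset.mem_coe, Finset.mem_filter] at hq
    obtain ⟨hq1, hq2, hq3⟩ := hq
    unfold Bx at hq1
    simp only [Finset.mem_product, Finset.mem_filter, Finset.mem_Ioc] at hq1
    obtain ⟨⟨⟨g1, g2⟩, g3⟩, ⟨g4, g5⟩, g6⟩ := hq1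
    have haL : L ∣ q.1 - a0 := dvd_tr (hLm.trans g3) hαL
    have hbL : L ∣ q.2 - b0 := dvd_tr (hLm.trans g6) hβL
    have hNN : N ∣ L := (dvd_pow_self N two_ne_zero).trans hNL
    refine ⟨⟨⟨g1, g2, abs_le.2 ⟨by linarith, g5⟩, fun Q hQ => ?_, fun Q hQ => ?_, fun P hP => ?_,
      fun P hP => ?_, hq3⟩, ?_⟩, ⟨hNN.trans haL, hNN.trans hbL⟩, hq2⟩
    · exact dvd_tr ((hSm Q hQ).trans g3) (hαS Q hQ)
    · have := dvd_tr ((hSm Q hQ).trans g6) (hβS Q hQ)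
      rwa [sub_zero] at this
    · exact (hTL P hP).trans haL
    · exact (hTL P hP).trans hbL
    · have k1 := h4L.trans haL
      have k2 := h4L.trans hbL
      have k3 := dvd_add (dvd_sub k1 k2) h4
      have e : q.1 - a0 - (q.2 - b0) + (a0 - b0) = q.1 - q.2 := by ring
      rwa [e] at k3
  have hfin : Z.Finite := by
    apply Set.Finite.subset (((Finset.Ioc (0 : ℤ) ((X : ℤ) ^ 2)) ×ˢ
      (Finset.Icc (-(X : ℤ) ^ 3) ((X : ℤ) ^ 3)) : Finset (ℤ × ℤ)).finite_toSet)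
    intro q hq
    rw [Finset.mem_coe, Finset.mem_product, Finset.mem_Ioc, Finset.mem_Icc]
    exact ⟨⟨hq.1.1.pa, hq.1.1.da⟩, abs_le.1 hq.1.1.db⟩
  have h2 : (((Bx X m α₀ β₀).filter fun q => InSub X u u' v v' q ∧
      Squarefree (dsc q.1 q.2)).card : ℝ) ≤ (Z.ncard : ℝ) := by
    have := Set.ncard_le_ncard hsub hfin
    rw [Set.ncard_coe_finset] at this
    exact_mod_cast this
  have h3 : (PS : ℝ) ^ 2 = ∏ Q ∈ S, (Q : ℝ) ^ 2 := by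
    rw [hPS]
    push_cast
    rw [← Finset.prod_pow]
  have h4 : ((m : ℤ) : ℝ)⁻¹ ^ 2 = (((L * PR : ℤ)) : ℝ)⁻¹ ^ 2 * (∏ Q ∈ S, (Q : ℝ) ^ 2)⁻¹ := by
    rw [← h3, hm]
    push_cast
    rw [mul_inv, mul_pow, inv_pow (PS : ℝ)]
  rw [h4, ← hδ] at h1
  have h5 := mul_le_mul_of_nonneg_left (h1.trans h2) hSprod.le
  refine le_trans (le_of_eq ?_) h5
  have hne : (∏ Q ∈ S, (Q : ℝ) ^ 2) ≠ 0 := hSprod.ne'
  have e : (∏ Q ∈ S, (Q : ℝ) ^ 2) * (1 / 2 * δ * (X : ℝ) ^ 5 * ((((L * PR : ℤ)) : ℝ)⁻¹ ^ 2 *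
      (∏ Q ∈ S, (Q : ℝ) ^ 2)⁻¹)) = (1 / 2 * δ * (X : ℝ) ^ 5 * (((L * PR : ℤ)) : ℝ)⁻¹ ^ 2) *
      ((∏ Q ∈ S, (Q : ℝ) ^ 2) * (∏ Q ∈ S, (Q : ℝ) ^ 2)⁻¹) := by ring
  rw [e, mul_inv_cancel₀ hne, mul_one]
  ring

end Pool.Agent.U376.RC
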