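import Pool.Agent.N40.PQ.Spl

/-!
# Primes `Q = 1` modulo `8 N` modulo which `g` splits (helper376, after `N40/PQ/Spl.lean`)
-/

set_option autoImplicit false
set_option linter.all false

open Polynomial NumberField
open scoped IntermediateField

namespace Pool.Agent.U376.RC

open Pool.Agent.N922.PQ Pool.Agent.N40.PQ

/-- a zero of a cyclotomic polynomial modulo a prime -/
theorem modn {q n : ℕ} (hq : q.Prime) (hn : 0 < n) (hqn : ¬ q ∣ n)
    (h : ((cyclotomic n ℤ).map (Int.castRingHom (ZMod q))).Splits) : q % n = 1 % n := by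
  have : Fact q.Prime := ⟨hq⟩
  rw [map_cyclotomic_int] at h
  have hdeg : (cyclotomic n (ZMod q)).degree ≠ 0 := by
    rw [degree_cyclotomic]
    have := Nat.totient_pos.2 hn
    intro h0
    have h1 : Nat.totient n = 0 := by exact_mod_cast h0
    omega
  obtain ⟨z, hz⟩ := h.exists_eval_eq_zero hdeg
  have hne : NeZero (n : ZMod q) := ⟨by
    rw [Ne, ZMod.natCast_eq_zero_iff]
    exact hqn⟩
  have hprim : IsPrimitiveRoot z n := isRoot_cyclotomic_iff.1 hz
  have hz0 : z ≠ 0 := hprim.ne_zero hn.ne'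
  have hdvd := ZMod.orderOf_dvd_card_sub_one hz0
  rw [← hprim.eq_orderOf] at hdvd
  have h1 := hq.one_lt
  exact ((Nat.modEq_iff_dvd' h1.le).2 hdvd).symm

theorem splN (M : Type) [Field M] [NumberField M] [IsGalois ℚ M] (γ : M) (g : ℤ[X])
    (δ : ℤ) (hG : Gen ℚ γ g δ) (hd : g.natDegree = Module.finrank ℚ M) (n : ℕ) (hn : 0 < n)
    (T : Finset ℤ) (r : ℕ) :
    ∃ (S : Finset ℤ) (s : ℤ → ℤ), GoodS S s ∧ S.card = r ∧ Disjoint S T ∧
      ∀ Q ∈ S, SplitMod Q g ∧ (n : ℤ) ∣ Q - 1 := by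
  classical
  -- the splitting field
  set f : ℤ[X] := g * cyclotomic (8 * n) ℤ with hf
  have h41 : (cyclotomic (8 * n) ℤ).Monic := cyclotomic.monic _ _
  have hfm : f.Monic := hG.monic.mul h41
  have hNN : NumberField (f.map (algebraMap ℤ ℚ)).SplittingField :=
    { to_charZero := charZero_of_injective_algebraMap
        (algebraMap ℚ (f.map (algebraMap ℤ ℚ)).SplittingField).injective
      to_finiteDimensional := inferInstance }
  have hfs : (f.map (algebraMap ℤ (f.map (algebraMap ℤ ℚ)).SplittingField)).Splits := by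
    have h1 := SplittingField.splits (f.map (algebraMap ℤ ℚ))
    rw [Polynomial.map_map] at h1
    convert h1 using 2
    exact RingHom.ext_int _ _
  obtain ⟨η, G, δ', hGG, hdG⟩ := gen (f.map (algebraMap ℤ ℚ)).SplittingField
  obtain ⟨Δ, hΔ0, hΔ⟩ := claim1 η G δ' hGG hdG f hfm hfs
  have hg0 : G.natDegree ≠ 0 := by
    rw [hdG]; exact Module.finrank_pos.ne'
  have hgood : ∀ q : ℕ, q.Prime → ¬ (q : ℤ) ∣ (8 * n : ℕ) * Δ → ∀ c : ℤ, (q : ℤ) ∣ G.eval c →
      SplitMod (q : ℤ) g ∧ q % (8 * n) = 1 % (8 * n) := by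
    intro q hq hqΔ c hc
    have : Fact q.Prime := ⟨hq⟩
    have h1 := hΔ q hq (fun h => hqΔ (h.mul_left _)) c hc
    rw [hf, Polynomial.map_mul] at h1
    have hne1 : g.map (Int.castRingHom (ZMod q)) ≠ 0 := (hG.monic.map _).ne_zero
    have hne2 : (cyclotomic (8 * n) ℤ).map (Int.castRingHom (ZMod q)) ≠ 0 := (h41.map _).ne_zero
    rw [splits_mul_iff hne1 hne2] at h1
    refine ⟨splitMod_of_splits q hq g hG.monic h1.1, modn hq (by omega) ?_ h1.2⟩
    intro hdv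
    exact hqΔ (Dvd.dvd.mul_right (by exact_mod_cast hdv) _)
  have hinf : {Q : ℤ | IsPr Q ∧ Q % 8 = 1 ∧ SplitMod Q g ∧ (n : ℤ) ∣ Q - 1}.Infinite := by
    intro hfin
    set P₀ : ℤ := (8 * n : ℕ) * Δ * ∏ Q ∈ hfin.toFinset, Q with hPi
    have hPi0 : P₀ ≠ 0 := by
      refine mul_ne_zero (mul_ne_zero (by exact_mod_cast (by omega : 8 * n ≠ 0)) hΔ0)
        (Finset.prod_ne_zero_iff.2 fun Q hQ => ?_)
      exact (hfin.mem_toFinset.1 hQ).1.1.ne'
    obtain ⟨q, c, h1, h3, h4⟩ := claim2 G hGG.monic hg0 P₀ hPi0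
    obtain ⟨h5, h6⟩ := hgood q h1 (fun h => h3 (h.mul_right _)) c h4
    have h7 : ((8 * n : ℕ) : ℤ) ∣ (q : ℤ) - 1 := by
      have h8 : (8 * n) ∣ q - 1 := (Nat.modEq_iff_dvd' h1.one_lt.le).1 h6.symm
      obtain ⟨k, hk⟩ := h8
      refine ⟨k, ?_⟩
      have h9 := h1.one_lt
      have h10 : q = 8 * n * k + 1 := by omega
      rw [h10]
      push_cast
      ring
    apply h3
    exact (Finset.dvd_prod_of_mem _ (hfin.mem_toFinset.2
      ⟨⟨by exact_mod_cast h1.pos, Nat.prime_iff_prime_int.1 h1⟩, by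
        have h8 : (8 : ℤ) ∣ (q : ℤ) - 1 := by
          refine Dvd.dvd.trans ?_ h7
          push_cast
          exact dvd_mul_right _ _
        omega, h5, by
          refine Dvd.dvd.trans ?_ h7
          push_cast
          exact dvd_mul_left _ _⟩)).mul_left _
  obtain ⟨S, hS1, hS2⟩ := (hinf.sdiff T.finite_toSet).exists_subset_card_eq r
  have hnr : ∀ Q : ℤ, IsPr Q → Q % 8 = 1 → ∃ s : ℤ, ∀ z : ℤ, ¬ Q ∣ z ^ 2 + s := by
    intro Q hQ hQ8
    obtain ⟨q, rfl⟩ := Int.eq_ofNat_of_zero_le hQ.1.le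
    exact exists_nonres (Nat.prime_iff_prime_int.2 hQ.2) (by rintro rfl; norm_num at hQ8)
  refine ⟨S, fun Q => if h : IsPr Q ∧ Q % 8 = 1 then (hnr Q h.1 h.2).choose else 0, ?_, hS2, ?_, ?_⟩
  · intro Q hQ
    have h := (hS1 hQ).1
    refine ⟨h.1, h.2.1, ?_⟩
    beta_reduce
    rw [dif_pos ⟨h.1, h.2.1⟩]
    exact (hnr Q h.1 h.2.1).choose_spec
  · rw [Finset.disjoint_left]
    intro Q hQ hQT
    exact (hS1 hQ).2 hQT
  · intro Q hQ
    exact (hS1 hQ).1.2.2

end Pool.Agent.U376.RC
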