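import Mathlib

/-!
# A box of shapes in a window of `j`-invariants (helper376)
-/

set_option autoImplicit false
set_option linter.all false

namespace Pool.Agent.U376.RC

/-- The condition on the shape: `x > 0`, `y` has the sign of `ε` and
`j = 6912 x ^ 3 / (4 x ^ 3 + 27 y ^ 2)` is between `j₁` and `j₂`. -/
def Shape (ε j₁ j₂ x y : ℝ) : Prop :=
  0 < x ∧ 0 < ε * y ∧ j₁ * (4 * x ^ 3 + 27 * y ^ 2) < 6912 * x ^ 3 ∧
    6912 * x ^ 3 < j₂ * (4 * x ^ 3 + 27 * y ^ 2)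

/-- The condition is invariant under scaling. -/
theorem Shape.scale {ε j₁ j₂ x y t : ℝ} (ht : 0 < t) :
    Shape ε j₁ j₂ (x * t ^ 2) (y * t ^ 3) ↔ Shape ε j₁ j₂ x y := by
  unfold Shape
  have e1 : j₁ * (4 * (x * t ^ 2) ^ 3 + 27 * (y * t ^ 3) ^ 2) =
      (j₁ * (4 * x ^ 3 + 27 * y ^ 2)) * t ^ 6 := by ring
  have e2 : j₂ * (4 * (x * t ^ 2) ^ 3 + 27 * (y * t ^ 3) ^ 2) =
      (j₂ * (4 * x ^ 3 + 27 * y ^ 2)) * t ^ 6 := by ring
  have e3 : 6912 * (x * t ^ 2) ^ 3 = (6912 * x ^ 3) * t ^ 6 := by ring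
  have e4 : ε * (y * t ^ 3) = (ε * y) * t ^ 3 := by ring
  rw [e1, e2, e3, e4, mul_pos_iff_of_pos_right (by positivity : 0 < t ^ 2),
    mul_pos_iff_of_pos_right (by positivity : 0 < t ^ 3),
    mul_lt_mul_iff_left₀ (by positivity : 0 < t ^ 6), mul_lt_mul_iff_left₀ (by positivity : 0 < t ^ 6)]

/-- A box in the window. -/
theorem exists_box {ε j₁ j₂ : ℝ} (hε : ε = 1 ∨ ε = -1) (h0 : 0 ≤ j₁) (h1 : j₁ < j₂)
    (h2 : j₂ ≤ 1728) : ∃ u u' v v' : ℝ, 0 ≤ u ∧ u < u' ∧ u' ≤ 1 ∧ -1 ≤ v ∧ v < v' ∧ v' ≤ 1 ∧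
      ∀ x y : ℝ, u < x → x ≤ u' → v < y → y ≤ v' → Shape ε j₁ j₂ x y := by
  obtain ⟨j, hj⟩ : ∃ j : ℝ, j = (j₁ + j₂) / 2 := ⟨_, rfl⟩
  have hj0 : 0 < j := by rw [hj]; linarith
  have hj1 : j < 1728 := by rw [hj]; linarith
  obtain ⟨t, ht⟩ : ∃ t : ℝ, t = 1728 / j - 1 := ⟨_, rfl⟩
  have ht0 : 0 < t := by
    rw [ht, sub_pos, lt_div_iff₀ hj0]
    linarith
  have htj : j * (1 + t) = 1728 := by
    rw [ht]
    field_simp
    ring
  obtain ⟨x₀, hx₀⟩ : ∃ x : ℝ, x = 1 / (2 * (1 + t)) := ⟨_, rfl⟩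
  have hx0 : 0 < x₀ := by rw [hx₀]; positivity
  have hx1 : x₀ * (1 + t) = 1 / 2 := by
    rw [hx₀]
    field_simp
  have hx2 : x₀ ≤ 1 / 2 := by nlinarith
  obtain ⟨r, hr⟩ : ∃ r : ℝ, r = Real.sqrt (4 * x₀ ^ 3 * t / 27) := ⟨_, rfl⟩
  have hr0 : 0 < r := by rw [hr]; positivity
  have hr2 : r ^ 2 = 4 * x₀ ^ 3 * t / 27 := by
    rw [hr]
    exact Real.sq_sqrt (by positivity)
  have hr1 : r < 1 := by
    have h3 : x₀ ^ 3 * t ≤ 1 / 2 := by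
      have h4 : x₀ * t ≤ 1 / 2 := by nlinarith
      have h5 : x₀ ^ 2 ≤ 1 := by nlinarith
      calc x₀ ^ 3 * t = x₀ ^ 2 * (x₀ * t) := by ring
        _ ≤ 1 * (1 / 2) := mul_le_mul h5 h4 (by positivity) (by norm_num)
        _ = 1 / 2 := by norm_num
    nlinarith
  obtain ⟨y₀, hy₀⟩ : ∃ y : ℝ, y = ε * r := ⟨_, rfl⟩
  have hε2 : ε * ε = 1 := by rcases hε with rfl | rfl <;> norm_num
  have hεy : ε * y₀ = r := by rw [hy₀, ← mul_assoc, hε2, one_mul]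
  have hy2 : y₀ ^ 2 = r ^ 2 := by
    rw [hy₀, mul_pow, sq ε, hε2, one_mul]
  have hyabs : |y₀| = r := by
    rw [← abs_of_pos hr0]
    exact (sq_eq_sq_iff_abs_eq_abs _ _).1 hy2
  have hD : 4 * x₀ ^ 3 + 27 * y₀ ^ 2 = 4 * x₀ ^ 3 * (1 + t) := by
    rw [hy2, hr2]
    ring
  have hDj : j * (4 * x₀ ^ 3 + 27 * y₀ ^ 2) = 6912 * x₀ ^ 3 := by
    rw [hD]
    calc j * (4 * x₀ ^ 3 * (1 + t)) = 4 * x₀ ^ 3 * (j * (1 + t)) := by ring
      _ = 6912 * x₀ ^ 3 := by rw [htj]; ring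
  have hD0 : 0 < 4 * x₀ ^ 3 + 27 * y₀ ^ 2 := by positivity
  have hpt : Shape ε j₁ j₂ x₀ y₀ := by
    refine ⟨hx0, by rw [hεy]; exact hr0, ?_, ?_⟩
    · rw [← hDj]
      exact mul_lt_mul_of_pos_right (by rw [hj]; linarith) hD0
    · rw [← hDj]
      exact mul_lt_mul_of_pos_right (by rw [hj]; linarith) hD0
  -- the set is open
  have hopen : IsOpen {q : ℝ × ℝ | Shape ε j₁ j₂ q.1 q.2} := by
    unfold Shape
    simp only [Set.setOf_and]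
    refine IsOpen.inter ?_ (IsOpen.inter ?_ (IsOpen.inter ?_ ?_))
    · exact isOpen_lt continuous_const continuous_fst
    · exact isOpen_lt continuous_const (by fun_prop)
    · exact isOpen_lt (by fun_prop) (by fun_prop)
    · exact isOpen_lt (by fun_prop) (by fun_prop)
  obtain ⟨ρ, hρ0, hρ⟩ := Metric.isOpen_iff.1 hopen (x₀, y₀) hpt
  obtain ⟨s, hs⟩ : ∃ s : ℝ, s = min (ρ / 2) (min x₀ (1 - r)) := ⟨_, rfl⟩
  have hs1 : s ≤ ρ / 2 := by rw [hs]; exact min_le_left _ _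
  have hs2 : s ≤ x₀ := by rw [hs]; exact (min_le_right _ _).trans (min_le_left _ _)
  have hs3 : s ≤ 1 - r := by rw [hs]; exact (min_le_right _ _).trans (min_le_right _ _)
  have hs0 : 0 < s := by
    rw [hs]
    exact lt_min (by linarith) (lt_min hx0 (by linarith))
  have hya := abs_le.1 hyabs.le
  refine ⟨x₀ - s, x₀ + s, y₀ - s, y₀ + s, by linarith, by linarith, by linarith, by linarith,
    by linarith, by linarith, fun x y hx hx' hy hy' => ?_⟩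
  have hmem : ((x, y) : ℝ × ℝ) ∈ Metric.ball ((x₀, y₀) : ℝ × ℝ) ρ := by
    rw [Metric.mem_ball, Prod.dist_eq, max_lt_iff, Real.dist_eq, Real.dist_eq]
    exact ⟨abs_lt.2 ⟨by simp only; linarith, by simp only; linarith⟩,
      abs_lt.2 ⟨by simp only; linarith, by simp only; linarith⟩⟩
  exact hρ hmem

end Pool.Agent.U376.RC
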