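import Pool.Agent.U693.UN.Om
import Pool.Agent.U376.RC.Spl
import Pool.Agent.U376.RC.Fam3
import Pool.Agent.U376.RC.Win

/-!
# A positive proportion of all elliptic curves in a residue class and with `j`-invariant in an interval
(helper376, after `U693/UN/Cnt.lean`, `U693/UN/Final.lean` and `N922/PQ/Cnt2.lean`)
-/

set_option autoImplicit false
set_option linter.all false

open Polynomial IsDedekindDomain WeierstrassCurve WeierstrassCurve.Affine NumberField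
open Pool.Agent.TH115.GD
open scoped Classical IntermediateField

namespace Pool.Agent.U376.RC

open Pool.Agent.N922.PQ hiding Cnd cnd_sq cnd_mul cnd_sig base_sq odd_top ns_top cnd_top
open Pool.Agent.U693.UN

/-- Many curves of the family are not bad. -/
theorem good_card3 (hBAD : S_BAD) (κ : ℕ) {T : Finset ℤ} {A B : ℤ → ℤ} (E : ℕ → ℤ × ℤ → Prop)
    {c : ℝ} (hc : 0 < c) (Φ : ℤ → Prop)
    (hfam : ∀ (S : Finset ℤ) (s : ℤ → ℤ), GoodS S s → Disjoint S T → (∀ Q ∈ S, Φ Q) →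
      ∃ X₀ : ℕ, ∀ X ≥ X₀, c * (X : ℝ) ^ 5 ≤ ((∏ Q ∈ S, (Q : ℝ) ^ 2)) *
      ({p : ℤ × ℤ | (Fam X S s T A B p.1 p.2 ∧ (4 : ℤ) ∣ p.1 - p.2) ∧ E X p}.ncard : ℝ))
    (hEX : ∀ r : ℕ, ∃ (S : Finset ℤ) (s : ℤ → ℤ), GoodS S s ∧ S.card = r ∧ Disjoint S T ∧
      ∀ Q ∈ S, Φ Q) :
    ∃ (S : Finset ℤ) (s : ℤ → ℤ) (c : ℝ), GoodS S s ∧ Disjoint S T ∧ (∀ Q ∈ S, Φ Q) ∧
      0 < c ∧ ∃ X₀ : ℕ, ∀ X ≥ X₀,
      c * (X : ℝ) ^ 5 ≤ ({p : ℤ × ℤ | ((Fam X S s T A B p.1 p.2 ∧ (4 : ℤ) ∣ p.1 - p.2) ∧ E X p) ∧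
        ¬ LBad κ X S s p.1 p.2}.ncard : ℝ) := by
  obtain ⟨K, hK⟩ := hBAD κ
  obtain ⟨r, hr⟩ : ∃ r : ℕ, 2 * (K : ℝ) / c < 2 ^ r :=
    pow_unbounded_of_one_lt _ (by norm_num)
  obtain ⟨S, s, hS, hcard, hdis, hΦ⟩ := hEX r
  obtain ⟨X₁, h1⟩ := hfam S s hS hdis hΦ
  obtain ⟨X₂, h2⟩ := hK S s hS
  set P : ℝ := ∏ Q ∈ S, (Q : ℝ) ^ 2 with hP
  have hP0 : 0 < P := Finset.prod_pos fun Q hQ => by
    have : (0 : ℝ) < Q := by exact_mod_cast (hS Q hQ).1.1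
    positivity
  refine ⟨S, s, c / (2 * P), hS, hdis, hΦ, by positivity, max X₁ X₂, fun X hX => ?_⟩
  have hF := h1 X ((le_max_left _ _).trans hX)
  obtain ⟨hfin, hB⟩ := h2 X ((le_max_right _ _).trans hX)
  have hd := Set.le_ncard_diff {p : ℤ × ℤ | LBad κ X S s p.1 p.2}
    {p : ℤ × ℤ | (Fam X S s T A B p.1 p.2 ∧ (4 : ℤ) ∣ p.1 - p.2) ∧ E X p} hfin
  have e : {p : ℤ × ℤ | (Fam X S s T A B p.1 p.2 ∧ (4 : ℤ) ∣ p.1 - p.2) ∧ E X p} \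
      {p : ℤ × ℤ | LBad κ X S s p.1 p.2} =
      {p : ℤ × ℤ | ((Fam X S s T A B p.1 p.2 ∧ (4 : ℤ) ∣ p.1 - p.2) ∧ E X p) ∧
        ¬ LBad κ X S s p.1 p.2} := rfl
  rw [e] at hd
  set F : ℕ := {p : ℤ × ℤ | (Fam X S s T A B p.1 p.2 ∧ (4 : ℤ) ∣ p.1 - p.2) ∧ E X p}.ncard
  set Bd : ℕ := {p : ℤ × ℤ | LBad κ X S s p.1 p.2}.ncard
  set G : ℕ := {p : ℤ × ℤ | ((Fam X S s T A B p.1 p.2 ∧ (4 : ℤ) ∣ p.1 - p.2) ∧ E X p) ∧
    ¬ LBad κ X S s p.1 p.2}.ncard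
  have hd' : (F : ℝ) ≤ Bd + G := by
    have : F ≤ Bd + G := by omega
    exact_mod_cast this
  have hB' : (2 : ℝ) ^ r * P * Bd ≤ K * (X : ℝ) ^ 5 := by
    rw [hcard] at hB
    have h3 : ((2 ^ r * (∏ Q ∈ S, Q) ^ 2 * (Bd : ℤ) : ℤ) : ℝ) ≤ ((K * X ^ 5 : ℤ) : ℝ) := by
      exact_mod_cast hB
    have e2 : ((2 ^ r * (∏ Q ∈ S, Q) ^ 2 * (Bd : ℤ) : ℤ) : ℝ) = (2 : ℝ) ^ r * P * Bd := by
      rw [hP, Finset.prod_pow]
      push_cast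
      ring
    rw [e2] at h3
    refine h3.trans (le_of_eq ?_)
    push_cast
    ring
  have hF' : c * (X : ℝ) ^ 5 ≤ P * F := hF
  rw [div_lt_iff₀ hc] at hr
  have hPB : P * (Bd : ℝ) ≤ c / 2 * (X : ℝ) ^ 5 := by
    have h2r : (0 : ℝ) < 2 ^ r := by positivity
    rw [← mul_le_mul_iff_right₀ h2r]
    calc 2 ^ r * (P * (Bd : ℝ)) = 2 ^ r * P * Bd := by ring
      _ ≤ K * (X : ℝ) ^ 5 := hB'
      _ = (2 * (K : ℝ)) * ((X : ℝ) ^ 5 / 2) := by ring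
      _ ≤ (2 ^ r * c) * ((X : ℝ) ^ 5 / 2) := by gcongr
      _ = 2 ^ r * (c / 2 * (X : ℝ) ^ 5) := by ring
  have hPG : c / 2 * (X : ℝ) ^ 5 ≤ P * G := by
    have : (P : ℝ) * F ≤ P * Bd + P * G := by
      rw [← mul_add]
      exact mul_le_mul_of_nonneg_left hd' hP0.le
    linarith
  calc c / (2 * P) * (X : ℝ) ^ 5 = c / 2 * (X : ℝ) ^ 5 / P := by
        field_simp
    _ ≤ P * G / P := by gcongr
    _ = G := by field_simp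

/-- The condition on the twisted curve. -/
def Loc (N a0 b0 : ℤ) (ε j₁ j₂ : ℝ) (p : ℤ × ℤ) : Prop :=
  (N ∣ p.1 - a0 ∧ N ∣ p.2 - b0) ∧ Shape ε j₁ j₂ p.1 p.2

theorem loc_twist {N a0 b0 D X : ℤ} {ε j₁ j₂ : ℝ} (hD0 : 0 < D) (hD : N ∣ D - 1) {p : ℤ × ℤ}
    (h : N ∣ p.1 - a0 ∧ N ∣ p.2 - b0) (hs : Shape ε j₁ j₂ p.1 p.2) :
    Loc N a0 b0 ε j₁ j₂ (p.1 * D ^ 2, p.2 * D ^ 3) := by
  have e2 : N ∣ D ^ 2 - 1 := by
    have := hD.trans (sub_dvd_pow_sub_pow D 1 2)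
    rwa [one_pow] at this
  have e3 : N ∣ D ^ 3 - 1 := by
    have := hD.trans (sub_dvd_pow_sub_pow D 1 3)
    rwa [one_pow] at this
  refine ⟨⟨?_, ?_⟩, ?_⟩
  · have := dvd_add (e2.mul_left p.1) h.1
    have e : p.1 * (D ^ 2 - 1) + (p.1 - a0) = p.1 * D ^ 2 - a0 := by ring
    rwa [e] at this
  · have := dvd_add (e3.mul_left p.2) h.2
    have e : p.2 * (D ^ 3 - 1) + (p.2 - b0) = p.2 * D ^ 3 - b0 := by ring
    rwa [e] at this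
  · have hDr : (0 : ℝ) < D := by exact_mod_cast hD0
    have := (Shape.scale (ε := ε) (j₁ := j₁) (j₂ := j₂) (x := (p.1 : ℝ)) (y := (p.2 : ℝ)) hDr).2 hs
    simpa only [Int.cast_mul, Int.cast_pow] using this

theorem prod_one {N : ℤ} {J : Finset ℤ} (h : ∀ Q ∈ J, N ∣ Q - 1) : N ∣ (∏ Q ∈ J, Q) - 1 := by
  classical
  induction J using Finset.induction_on with
  | empty => simp
  | insert a J ha ih =>
    rw [Finset.prod_insert ha]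
    have h1 := h a (Finset.mem_insert_self _ _)
    have h2 := ih fun Q hQ => h Q (Finset.mem_insert_of_mem hQ)
    have e : a * ∏ Q ∈ J, Q - 1 = (a - 1) * ∏ Q ∈ J, Q + (∏ Q ∈ J, Q - 1) := by ring
    rw [e]
    exact dvd_add (h1.mul_right _) h2

/-- A generator of the field, with `δ = 1` if the field is `ℚ`. -/
theorem genD (K : Type) [Field K] [NumberField K] : ∃ (γ : K) (g : ℤ[X]) (δ : ℤ), Gen ℚ γ g δ ∧
    g.natDegree = Module.finrank ℚ K ∧ 0 < δ ∧ (Module.finrank ℚ K = 1 → δ = 1) := by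
  by_cases h1 : Module.finrank ℚ K = 1
  · refine ⟨0, X, 1, ⟨?_, monic_X, by simp, one_ne_zero, 0, 1, by simp⟩, by
      rw [h1]; exact natDegree_X, one_pos, fun _ => rfl⟩
    have hb : (⊥ : IntermediateField ℚ K) = ⊤ := by
      have e := IntermediateField.bot_eq_top_iff_finrank_eq_one (F := ℚ) (E := K)
      exact e.2 h1
    rw [← hb]
    exact IntermediateField.adjoin_zero
  · obtain ⟨γ, g, δ, hG, hd⟩ := Pool.Agent.N40.PQ.gen K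
    rcases lt_or_gt_of_ne hG.ne with h2 | h2
    · refine ⟨γ, g, -δ, ⟨hG.top, hG.monic, hG.root, neg_ne_zero.2 hG.ne, ?_⟩, hd, by omega,
        fun h => absurd h h1⟩
      obtain ⟨u, w, huw⟩ := hG.comb
      refine ⟨-u, -w, ?_⟩
      rw [C_neg, huw]
      ring
    · exact ⟨γ, g, δ, hG, hd, h2, fun h => absurd h h1⟩

/-- **A positive proportion in a residue class and with `j`-invariant in an interval.** -/
theorem mainL (K : Type) [Field K] [NumberField K] [IsGalois ℚ K] {n : ℕ}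
    (hn : Module.finrank ℚ K = 2 ^ n)
    (h2 : ∀ 𝔭 : Ideal (𝓞 K), 𝔭.IsPrime → (2 : 𝓞 K) ∉ 𝔭 ^ 2) :
    ∃ Δ : ℤ, 0 < Δ ∧ (Module.finrank ℚ K = 1 → Δ = 1) ∧
    ∀ (N a0 b0 : ℤ) (ε j₁ j₂ : ℝ), 0 < N → Odd a0 → (4 : ℤ) ∣ a0 - b0 →
    (∀ p : ℕ, p.Prime → (p : ℤ) ∣ 3 * Δ → ∀ z : ℤ, ¬ (p : ℤ) ∣ z ^ 3 + a0 * z + b0) →
    (∀ p : ℕ, p.Prime → (p : ℤ) ∣ N → ¬ (p : ℤ) ^ 2 ∣ dsc a0 b0) →
    (ε = 1 ∨ ε = -1) → 0 ≤ j₁ → j₁ < j₂ → j₂ ≤ 1728 →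
    ∃ S : Finset ℤ, (∀ Q ∈ S, IsPr Q ∧ Q % 8 = 1 ∧ N ∣ Q - 1) ∧
    ∃ c : ℝ, 0 < c ∧ ∃ H₀ : ℕ, ∀ H ≥ H₀, {p : ℤ × ℤ | Crv H p.1 p.2}.Finite ∧
    c * ({p : ℤ × ℤ | Crv H p.1 p.2}.ncard : ℝ) ≤
      ({p : ℤ × ℤ | Crv H p.1 p.2 ∧ (Loc N a0 b0 ε j₁ j₂ p ∧ InClass S p.1 p.2 K ∧
        (∀ z : ℤ, ¬ (2 : ℤ) ∣ z ^ 3 + p.1 * z + p.2) ∧
        ∀ (M : Type) [Field M] [NumberField M], InClass S p.1 p.2 M →
          GoodV (M := M) (𝓞 M) p)}.ncard : ℝ) := by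
  obtain ⟨γ, g, δ, hG, hdeg, hδ0, hδ1⟩ := genD K
  refine ⟨δ, hδ0, hδ1, ?_⟩
  intro N a0 b0 ε j₁ j₂ hN ha h4 hnz hsq hε hj0 hj hj1
  -- the set `T` of primes
  obtain ⟨T, hTpr, hT2, hT3, hδ, hTz⟩ : ∃ T : Finset ℤ, (∀ P ∈ T, IsPr P) ∧ (2 : ℤ) ∈ T ∧
      (3 : ℤ) ∈ T ∧ (∀ P : ℤ, IsPr P → P ∣ δ → P ∈ T) ∧
      ∀ P ∈ T, ∀ z : ℤ, ¬ P ∣ z ^ 3 + a0 * z + b0 := by
    have hf : {P : ℤ | IsPr P ∧ P ∣ 6 * δ}.Finite := by
      refine (Set.finite_Icc (-|6 * δ|) |6 * δ|).subset ?_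
      rintro P ⟨-, h⟩
      have h3 : |P| ≤ |6 * δ| := Int.le_of_dvd (abs_pos.2 (by omega)) ((abs_dvd_abs P _).2 h)
      exact abs_le.1 h3
    have h2p : IsPr 2 := ⟨by norm_num, Int.prime_two⟩
    have h3p : IsPr 3 := ⟨by norm_num, Int.prime_three⟩
    have h6 : ∀ P : ℤ, P ∣ δ → P ∣ 6 * δ := fun P h => h.mul_left 6
    refine ⟨hf.toFinset, fun P hP => ?_, ?_, ?_, fun P h1 h2 => ?_, fun P hP z hz => ?_⟩
    · exact (hf.mem_toFinset.1 hP).1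
    · exact hf.mem_toFinset.2 ⟨h2p, ⟨3 * δ, by ring⟩⟩
    · exact hf.mem_toFinset.2 ⟨h3p, ⟨2 * δ, by ring⟩⟩
    · exact hf.mem_toFinset.2 ⟨h1, h6 P h2⟩
    · obtain ⟨hPp, hPd⟩ := hf.mem_toFinset.1 hP
      obtain ⟨p, rfl⟩ : ∃ p : ℕ, P = (p : ℤ) := ⟨P.toNat, (Int.toNat_of_nonneg hPp.1.le).symm⟩
      have hp : p.Prime := Nat.prime_iff_prime_int.2 hPp.2
      by_cases hp2 : p = 2
      · subst hp2
        obtain ⟨k, hk⟩ := ha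
        obtain ⟨l, hl⟩ := h4
        have hb : b0 = 2 * (k - 2 * l) + 1 := by omega
        rw [hk, hb] at hz
        rcases Int.even_or_odd z with ⟨w, hw⟩ | ⟨w, hw⟩
        · rw [hw] at hz
          have e : (w + w) ^ 3 + (2 * k + 1) * (w + w) + (2 * (k - 2 * l) + 1) =
              2 * (4 * w ^ 3 + (2 * k + 1) * w + (k - 2 * l)) + 1 := by ring
          rw [e] at hz
          have hz' := (Int.dvd_add_right (Dvd.intro _ rfl)).1 hz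
          norm_num at hz'
        · rw [hw] at hz
          have e : (2 * w + 1) ^ 3 + (2 * k + 1) * (2 * w + 1) + (2 * (k - 2 * l) + 1) =
              2 * (4 * w ^ 3 + 6 * w ^ 2 + 3 * w + 2 * k * w + w + k + 1 + (k - 2 * l)) + 1 := by
            ring
          rw [e] at hz
          have hz' := (Int.dvd_add_right (Dvd.intro _ rfl)).1 hz
          norm_num at hz'
      · apply hnz p hp _ z hz
        have e : (6 : ℤ) * δ = 2 * (3 * δ) := by ring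
        rw [e] at hPd
        rcases hPp.2.dvd_or_dvd hPd with h5 | h5
        · exfalso
          have h6 : p ∣ 2 := by exact_mod_cast h5
          exact hp2 ((Nat.prime_dvd_prime_iff_eq hp Nat.prime_two).1 h6)
        · exact h5
  have hT : GoodT T (fun _ => a0) (fun _ => b0) := ⟨hT2, hT3, fun P hP => ⟨hTpr P hP, hTz P hP⟩⟩
  obtain ⟨u, u', v, v', hu0, hu, hu1, hv0, hv, hv1, hbox⟩ := exists_box hε hj0 hj hj1
  obtain ⟨K₀, c₀, hc₀, hfam⟩ := fam3 hT h4 hN hsq hu0 hu hu1 hv0 hv hv1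
  obtain ⟨κ, hLB'⟩ := lb
  obtain ⟨S, s, c, hS, hdis, hΦ, hc, X₀, hX₀⟩ := good_card3 bad κ (T := T) (A := fun _ => a0)
    (B := fun _ => b0) (fun X p => (N ∣ p.1 - a0 ∧ N ∣ p.2 - b0) ∧ InSub X u u' v v' p) hc₀
    (fun Q => (K₀ : ℤ) < Q ∧ SplitMod Q g ∧ N ∣ Q - 1)
    (fun S s hS hdis hΦ => hfam S s hS hdis fun Q hQ => (hΦ Q hQ).1) (by
      intro r
      obtain ⟨S, s, h1, h2, h3, h4⟩ := splN K γ g δ hG hdeg N.toNat (by omega)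
        (T ∪ Finset.Icc 0 (K₀ : ℤ)) r
      rw [Finset.disjoint_union_right] at h3
      refine ⟨S, s, h1, h2, h3.1, fun Q hQ => ⟨?_, (h4 Q hQ).1, ?_⟩⟩
      · have h5 := Finset.disjoint_left.1 h3.2 hQ
        rw [Finset.mem_Icc] at h5
        have h6 := (h1 Q hQ).1.1
        omega
      · have h5 := (h4 Q hQ).2
        rwa [Int.toNat_of_nonneg hN.le] at h5)
  refine ⟨S, fun Q hQ => ⟨(hS Q hQ).1, (hS Q hQ).2.1, (hΦ Q hQ).2.2⟩, ?_⟩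
  have hSpos : 0 < ∏ Q ∈ S, Q := Finset.prod_pos fun Q hQ => (hS Q hQ).1.1
  refine Pool.Agent.N607.PQ.cnt _ (∏ Q ∈ S, Q).toNat (max X₀ 1) (c / 2 ^ S.card) (by positivity)
    (by omega) ?_
  intro X hX Hh hHh
  have hX1 : 1 ≤ X := (le_max_right _ _).trans hX
  have hNc := hX₀ X ((le_max_left _ _).trans hX)
  set Hs := {p : ℤ × ℤ | Crv Hh p.1 p.2 ∧ (Loc N a0 b0 ε j₁ j₂ p ∧ InClass S p.1 p.2 K ∧
        (∀ z : ℤ, ¬ (2 : ℤ) ∣ z ^ 3 + p.1 * z + p.2) ∧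
        ∀ (M : Type) [Field M] [NumberField M], InClass S p.1 p.2 M →
          GoodV (M := M) (𝓞 M) p)} with hH
  set G := {p : ℤ × ℤ | ((Fam X S s T (fun _ => a0) (fun _ => b0) p.1 p.2 ∧
    (4 : ℤ) ∣ p.1 - p.2) ∧ ((N ∣ p.1 - a0 ∧ N ∣ p.2 - b0) ∧ InSub X u u' v v' p)) ∧
    ¬ LBad κ X S s p.1 p.2} with hG'
  have hHf : Hs.Finite := (crv_fin Hh).subset fun p hp => hp.1
  have hbd : 27 * ((X : ℤ) * ∏ Q ∈ S, Q) ^ 6 ≤ Hh := by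
    have h1 : ((27 * (X * (∏ Q ∈ S, Q).toNat) ^ 6 : ℕ) : ℤ) ≤ Hh := by exact_mod_cast hHh
    have e1 : (((∏ Q ∈ S, Q).toNat : ℕ) : ℤ) = ∏ Q ∈ S, Q := Int.toNat_of_nonneg hSpos.le
    rw [Nat.cast_mul, Nat.cast_pow, Nat.cast_mul, e1] at h1
    exact_mod_cast h1
  have hcard := card_fib hHf S
    (fun (J : Finset ℤ) (p : ℤ × ℤ) => (p.1 * (∏ Q ∈ J, Q) ^ 2, p.2 * (∏ Q ∈ J, Q) ^ 3)) (G := G) (by
      rintro p ⟨⟨⟨hpF, hp4⟩, hpN, hpS⟩, hnb⟩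
      obtain ⟨J, hJ, hg1, hg2⟩ := good_one parts2 hLB' Pool.Agent.N650.PM.gfr
        Pool.Agent.N273.PQ.finm Pool.Agent.N137.PV.tor hS hpF hp4 hnb hT hdis
      have hJ0 : 0 < ∏ Q ∈ J, Q := Finset.prod_pos fun Q hQ => (hS Q (hJ hQ)).1.1
      have hJ1 : N ∣ (∏ Q ∈ J, Q) - 1 := prod_one fun Q hQ => (hΦ Q (hJ hQ)).2.2
      have hshape : Shape ε j₁ j₂ p.1 p.2 := by
        obtain ⟨⟨q1, q2⟩, q3, q4⟩ := hpS
        have hXr : (0 : ℝ) < X := by exact_mod_cast hX1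
        have hb := hbox ((p.1 : ℝ) / (X : ℝ) ^ 2) ((p.2 : ℝ) / (X : ℝ) ^ 3)
          (by rw [lt_div_iff₀ (by positivity)]; exact q1)
          (by rw [div_le_iff₀ (by positivity)]; exact q2)
          (by rw [lt_div_iff₀ (by positivity)]; exact q3)
          (by rw [div_le_iff₀ (by positivity)]; exact q4)
        have hb' := (Shape.scale hXr).2 hb
        have e1 : (p.1 : ℝ) / (X : ℝ) ^ 2 * (X : ℝ) ^ 2 = p.1 := by field_simp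
        have e2 : (p.2 : ℝ) / (X : ℝ) ^ 3 * (X : ℝ) ^ 3 = p.2 := by field_simp
        rwa [e1, e2] at hb'
      refine ⟨J, hJ, Pool.Agent.N707.PQ.crv X Hh S T s (fun _ => a0) (fun _ => b0) p.1 p.2 hS hT hpF
        J hJ hbd, loc_twist (X := 0) hJ0 hJ1 hpN hshape, ?_, ?_, hg2⟩
      · exact base_class hn h2 hG hS hdis hδ (fun Q hQ => (hΦ Q hQ).2.1) hg1
      · exact hg1 2 hT2) (by
      intro J hJ x hx y hy hxy
      have hD0 : (∏ Q ∈ J, Q) ≠ 0 := by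
        rw [Finset.prod_ne_zero_iff]
        exact fun Q hQ => (hS Q (hJ hQ)).1.2.ne_zero
      rw [Prod.mk.injEq] at hxy
      exact twist_inj hD0 hxy.1 hxy.2)
  have hcard' : (G.ncard : ℝ) ≤ 2 ^ S.card * Hs.ncard := by exact_mod_cast hcard
  calc c / 2 ^ S.card * (X : ℝ) ^ 5
      = c * (X : ℝ) ^ 5 / 2 ^ S.card := by ring
    _ ≤ (G.ncard : ℝ) / 2 ^ S.card := by gcongr
    _ ≤ (2 ^ S.card * Hs.ncard) / 2 ^ S.card := by gcongr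
    _ = Hs.ncard := by field_simp

end Pool.Agent.U376.RC
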