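import Pool.Agent.N456.PQ.Fam

/-!
# Many pairs with squarefree `4 a ^ 3 + 27 b ^ 2` in a part of the box and in a residue class
(helper376, after `N456/PQ/Fam.lean`)
-/

set_option autoImplicit false
set_option linter.all false

open scoped Classical
open Filter Topology

namespace Pool.Agent.U376.RC

open Pool.Agent.N922.PQ Pool.Agent.N456.PQ

/-- the pairs with a square factor of the discriminant, if there are no small prime factors -/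
theorem bad_leK {m : ℤ} (hm : 0 < m) {X : ℕ} (hX : 1 ≤ X) (a0 b0 : ℤ) (K Y : ℕ) (hK : 4 ≤ K)
    (hY : K ≤ Y)
    (hdv : ∀ a b : ℤ, m ∣ a - a0 → m ∣ b - b0 → ∀ p : ℕ, p.Prime → (p : ℤ) ^ 2 ∣ dsc a b →
      K < p ∧ IsCoprime m (p : ℤ)) :
    ((((Bx X m a0 b0).filter fun q => ¬ Squarefree (dsc q.1 q.2)).card : ℝ)) ≤
      6 * (X : ℝ) ^ 5 * (m : ℝ)⁻¹ ^ 2 / K + 18 * Y * (X : ℝ) ^ 3 + 20 * (X : ℝ) ^ 5 / Y +
        4 * (X : ℝ) ^ 2 * (Nat.primeCounting (6 * X ^ 3) : ℝ) := by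
  obtain ⟨P, hP⟩ : ∃ P : Finset ℕ, P = (Finset.range (6 * X ^ 3 + 1)).filter fun p : ℕ =>
    p.Prime ∧ K < p ∧ IsCoprime m (p : ℤ) := ⟨_, rfl⟩
  have hPm : ∀ p : ℕ, p ∈ P ↔ p < 6 * X ^ 3 + 1 ∧ p.Prime ∧ K < p ∧ IsCoprime m (p : ℤ) := by
    intro p
    rw [hP, Finset.mem_filter, Finset.mem_range]
  have hm1 : (1 : ℝ) ≤ m := by exact_mod_cast hm
  have hsub : ((Bx X m a0 b0).filter fun q => ¬ Squarefree (dsc q.1 q.2)) ⊆
      P.biUnion fun p => Gs X m a0 b0 p := by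
    intro q hq
    rw [Finset.mem_filter] at hq
    obtain ⟨hq1, hq2⟩ := hq
    unfold Bx at hq1
    simp only [Finset.mem_product, Finset.mem_filter, Finset.mem_Ioc] at hq1
    obtain ⟨⟨⟨h1, h2⟩, h3⟩, ⟨h4, h5⟩, h6⟩ := hq1
    obtain ⟨p, hp, hpd⟩ := exists_p h1 hq2
    have h7 := hdv q.1 q.2 h3 h6 p hp hpd
    have h8 : p ≤ 6 * X ^ 3 := p_le h1 h2 (by linarith) h5 hpd
    rw [Finset.mem_biUnion]
    refine ⟨p, (hPm p).2 ⟨by omega, hp, h7⟩, ?_⟩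
    unfold Gs
    simp only [Finset.mem_product, Finset.mem_filter, Finset.mem_Ioc]
    exact ⟨⟨⟨h1, h2⟩, h4, h5⟩, h3, h6, hpd⟩
  have h1 : ((((Bx X m a0 b0).filter fun q => ¬ Squarefree (dsc q.1 q.2)).card : ℝ)) ≤
      ∑ p ∈ P, ((Gs X m a0 b0 p).card : ℝ) := by
    have h2 := (Finset.card_le_card hsub).trans Finset.card_biUnion_le
    exact_mod_cast h2
  refine h1.trans ?_
  rw [← Finset.sum_filter_add_sum_filter_not P (fun p => p ≤ Y)]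
  -- small primes
  have h2 : ∑ p ∈ P.filter (fun p => p ≤ Y), ((Gs X m a0 b0 p).card : ℝ) ≤
      6 * (X : ℝ) ^ 5 * (m : ℝ)⁻¹ ^ 2 / K + 18 * Y * (X : ℝ) ^ 3 := by
    have h3 : ∑ p ∈ P.filter (fun p => p ≤ Y), ((Gs X m a0 b0 p).card : ℝ) ≤
        ∑ p ∈ Finset.Ioc K Y, (6 * (X : ℝ) ^ 5 * (m : ℝ)⁻¹ ^ 2 * ((p : ℝ) ^ 2)⁻¹ +
          18 * (X : ℝ) ^ 3) := by
      refine (Finset.sum_le_sum (g := fun p : ℕ => (6 * (X : ℝ) ^ 5 * (m : ℝ)⁻¹ ^ 2 *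
        ((p : ℝ) ^ 2)⁻¹ + 18 * (X : ℝ) ^ 3)) ?_).trans ?_
      · intro p hp
        obtain ⟨h4, h5⟩ := Finset.mem_filter.1 hp
        obtain ⟨-, h6, h7, h8⟩ := (hPm p).1 h4
        exact card_small h6 (by omega) hm h8 hX a0 b0
      · apply Finset.sum_le_sum_of_subset_of_nonneg
        · intro p hp
          obtain ⟨h4, h5⟩ := Finset.mem_filter.1 hp
          obtain ⟨-, h6, h7, h8⟩ := (hPm p).1 h4
          rw [Finset.mem_Ioc]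
          exact ⟨by omega, h5⟩
        · intro p _ _
          positivity
    refine h3.trans ?_
    rw [Finset.sum_add_distrib, ← Finset.mul_sum, Finset.sum_const, Nat.card_Ioc, nsmul_eq_mul]
    have h4 := sum_Ioc_inv_sq_le_sub (α := ℝ) (k := K) (by omega) hY
    have h5 : (0 : ℝ) ≤ (Y : ℝ)⁻¹ := by positivity
    have h6 : ∑ i ∈ Finset.Ioc K Y, ((i : ℝ) ^ 2)⁻¹ ≤ (K : ℝ)⁻¹ := by
      refine h4.trans ?_
      linarith
    have h7 := mul_le_mul_of_nonneg_left h6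
      (show 0 ≤ 6 * (X : ℝ) ^ 5 * (m : ℝ)⁻¹ ^ 2 by positivity)
    have h8 : ((Y - K : ℕ) : ℝ) ≤ Y := by exact_mod_cast Nat.sub_le _ _
    have h9 := mul_le_mul_of_nonneg_right h8 (show 0 ≤ 18 * (X : ℝ) ^ 3 by positivity)
    rw [div_eq_mul_inv]
    linarith
  -- large primes
  have h3 : ∑ p ∈ P.filter (fun p => ¬ p ≤ Y), ((Gs X m a0 b0 p).card : ℝ) ≤
      20 * (X : ℝ) ^ 5 / Y + 4 * (X : ℝ) ^ 2 * (Nat.primeCounting (6 * X ^ 3) : ℝ) := by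
    have h4 : ∑ p ∈ P.filter (fun p => ¬ p ≤ Y), ((Gs X m a0 b0 p).card : ℝ) ≤
        ∑ p ∈ P.filter (fun p => ¬ p ≤ Y), (20 * (X : ℝ) ^ 5 * ((p : ℝ) ^ 2)⁻¹ +
          4 * (X : ℝ) ^ 2) := by
      apply Finset.sum_le_sum
      intro p hp
      obtain ⟨h4, h5⟩ := Finset.mem_filter.1 hp
      obtain ⟨h6', h6, h7, h8⟩ := (hPm p).1 h4
      refine le_trans ?_ (card_large h6 (by omega) hX)
      have h9 : Gs X m a0 b0 p ⊆ Gs X 1 0 0 p := by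
        intro q hq
        unfold Gs at hq ⊢
        rw [Finset.mem_filter] at hq ⊢
        exact ⟨hq.1, one_dvd _, one_dvd _, hq.2.2.2⟩
      exact_mod_cast Finset.card_le_card h9
    refine h4.trans ?_
    rw [Finset.sum_add_distrib, ← Finset.mul_sum, Finset.sum_const, nsmul_eq_mul]
    have h5 : ∑ p ∈ P.filter (fun p => ¬ p ≤ Y), ((p : ℝ) ^ 2)⁻¹ ≤ (Y : ℝ)⁻¹ := by
      have h6 : ∑ p ∈ P.filter (fun p => ¬ p ≤ Y), ((p : ℝ) ^ 2)⁻¹ ≤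
          ∑ p ∈ Finset.Ioc Y (max Y (6 * X ^ 3)), ((p : ℝ) ^ 2)⁻¹ := by
        apply Finset.sum_le_sum_of_subset_of_nonneg
        · intro p hp
          obtain ⟨h4, h5⟩ := Finset.mem_filter.1 hp
          obtain ⟨h6, -⟩ := (hPm p).1 h4
          rw [Finset.mem_Ioc]
          exact ⟨by omega, le_max_of_le_right (by omega)⟩
        · intro p _ _
          positivity
      refine h6.trans ((sum_Ioc_inv_sq_le_sub (α := ℝ) (by omega) (le_max_left _ _)).trans ?_)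
      have : (0 : ℝ) ≤ ((max Y (6 * X ^ 3) : ℕ) : ℝ)⁻¹ := by positivity
      linarith
    have h6 : ((P.filter (fun p => ¬ p ≤ Y)).card : ℝ) ≤ (Nat.primeCounting (6 * X ^ 3) : ℝ) := by
      have h7 : (P.filter (fun p => ¬ p ≤ Y)) ⊆ (Finset.range (6 * X ^ 3 + 1)).filter Nat.Prime := by
        intro p hp
        obtain ⟨h4, h5⟩ := Finset.mem_filter.1 hp
        obtain ⟨h6, h7, -⟩ := (hPm p).1 h4
        rw [Finset.mem_filter, Finset.mem_range]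
        exact ⟨h6, h7⟩
      have h8 := Finset.card_le_card h7
      have h9 : ((Finset.range (6 * X ^ 3 + 1)).filter Nat.Prime).card =
          Nat.primeCounting (6 * X ^ 3) := by
        rw [Nat.primeCounting, Nat.primeCounting', Nat.count_eq_card_filter_range]
      rw [h9] at h8
      exact_mod_cast h8
    have h7 := mul_le_mul_of_nonneg_left h5 (show 0 ≤ 20 * (X : ℝ) ^ 5 by positivity)
    have h8 := mul_le_mul_of_nonneg_right h6 (show 0 ≤ 4 * (X : ℝ) ^ 2 by positivity)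
    rw [div_eq_mul_inv]
    linarith
  linarith

/-- a part of the box -/
def InSub (X : ℕ) (u u' v v' : ℝ) (q : ℤ × ℤ) : Prop :=
  (u * (X : ℝ) ^ 2 < q.1 ∧ (q.1 : ℝ) ≤ u' * (X : ℝ) ^ 2) ∧
    (v * (X : ℝ) ^ 3 < q.2 ∧ (q.2 : ℝ) ≤ v' * (X : ℝ) ^ 3)

theorem card_sub {m : ℤ} (hm : 0 < m) {X : ℕ} (hX : 1 ≤ X) (a0 b0 : ℤ) {u u' v v' : ℝ}
    (hu0 : 0 ≤ u) (hu : u ≤ u') (hu1 : u' ≤ 1) (hv0 : -1 ≤ v) (hv : v ≤ v') (hv1 : v' ≤ 1)
    (h1 : 2 ≤ (u' - u) * (X : ℝ) ^ 2 * (m : ℝ)⁻¹) (h2 : 2 ≤ (v' - v) * (X : ℝ) ^ 3 * (m : ℝ)⁻¹) :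
    (u' - u) * (v' - v) * (X : ℝ) ^ 5 * (m : ℝ)⁻¹ ^ 2 - 8 * (X : ℝ) ^ 3 ≤
      (((Bx X m a0 b0).filter fun q => InSub X u u' v v' q).card : ℝ) := by
  have hm1 : (1 : ℝ) ≤ m := by exact_mod_cast hm
  have hx : (1 : ℝ) ≤ X := by exact_mod_cast hX
  have hX2 : (0 : ℝ) ≤ (X : ℝ) ^ 2 := by positivity
  have hX3 : (0 : ℝ) ≤ (X : ℝ) ^ 3 := by positivity
  have k1 := card_cls_ge (u := ⌊u * (X : ℝ) ^ 2⌋) (v := ⌊u' * (X : ℝ) ^ 2⌋) hm a0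
  have k2 := card_cls_ge (u := ⌊v * (X : ℝ) ^ 3⌋) (v := ⌊v' * (X : ℝ) ^ 3⌋) hm b0
  obtain ⟨α, hα⟩ : ∃ α : ℝ, α = (m : ℝ)⁻¹ := ⟨_, rfl⟩
  have hα0 : 0 < α := by rw [hα]; positivity
  have hα1 : α ≤ 1 := by rw [hα]; exact inv_le_one_of_one_le₀ hm1
  rw [div_eq_mul_inv, ← hα] at k1 k2
  rw [← hα] at h1 h2 ⊢
  have hsub : ((Finset.Ioc ⌊u * (X : ℝ) ^ 2⌋ ⌊u' * (X : ℝ) ^ 2⌋).filter fun a => m ∣ a - a0) ×ˢ
      ((Finset.Ioc ⌊v * (X : ℝ) ^ 3⌋ ⌊v' * (X : ℝ) ^ 3⌋).filter fun b => m ∣ b - b0) ⊆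
      (Bx X m a0 b0).filter fun q => InSub X u u' v v' q := by
    intro q hq
    simp only [Finset.mem_product, Finset.mem_filter, Finset.mem_Ioc] at hq
    obtain ⟨⟨⟨p1, p2⟩, p3⟩, ⟨p4, p5⟩, p6⟩ := hq
    rw [Int.floor_lt] at p1 p4
    rw [Int.le_floor] at p2 p5
    unfold Bx
    simp only [Finset.mem_product, Finset.mem_filter, Finset.mem_Ioc]
    refine ⟨⟨⟨⟨?_, ?_⟩, p3⟩, ⟨?_, ?_⟩, p6⟩, ⟨p1, p2⟩, p4, p5⟩
    · have : (0 : ℝ) < q.1 := lt_of_le_of_lt (by positivity) p1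
      exact_mod_cast this
    · have : (q.1 : ℝ) ≤ (X : ℝ) ^ 2 := p2.trans (by nlinarith)
      exact_mod_cast this
    · have : (-(X : ℝ) ^ 3 - 1) < q.2 := by nlinarith
      exact_mod_cast this
    · have : (q.2 : ℝ) ≤ (X : ℝ) ^ 3 := p5.trans (by nlinarith)
      exact_mod_cast this
  have k3 := Finset.card_le_card hsub
  rw [Finset.card_product] at k3
  have k4 : ((((Finset.Ioc ⌊u * (X : ℝ) ^ 2⌋ ⌊u' * (X : ℝ) ^ 2⌋).filter fun a => m ∣ a - a0).card : ℝ)) *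
      (((Finset.Ioc ⌊v * (X : ℝ) ^ 3⌋ ⌊v' * (X : ℝ) ^ 3⌋).filter fun b => m ∣ b - b0).card : ℝ) ≤
      (((Bx X m a0 b0).filter fun q => InSub X u u' v v' q).card : ℝ) := by exact_mod_cast k3
  have k5 : (u' - u) * (X : ℝ) ^ 2 * α - 2 ≤
      ((((Finset.Ioc ⌊u * (X : ℝ) ^ 2⌋ ⌊u' * (X : ℝ) ^ 2⌋).filter fun a => m ∣ a - a0).card : ℝ)) := by
    refine le_trans ?_ k1
    have e1 := Int.lt_floor_add_one (u' * (X : ℝ) ^ 2)
    have e2 := Int.floor_le (u * (X : ℝ) ^ 2)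
    have e3 : ((u' - u) * (X : ℝ) ^ 2 - 1) * α ≤
        ((⌊u' * (X : ℝ) ^ 2⌋ : ℝ) - ⌊u * (X : ℝ) ^ 2⌋) * α :=
      mul_le_mul_of_nonneg_right (by linarith) hα0.le
    linarith
  have k6 : (v' - v) * (X : ℝ) ^ 3 * α - 2 ≤
      ((((Finset.Ioc ⌊v * (X : ℝ) ^ 3⌋ ⌊v' * (X : ℝ) ^ 3⌋).filter fun b => m ∣ b - b0).card : ℝ)) := by
    refine le_trans ?_ k2
    have e1 := Int.lt_floor_add_one (v' * (X : ℝ) ^ 3)
    have e2 := Int.floor_le (v * (X : ℝ) ^ 3)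
    have e3 : ((v' - v) * (X : ℝ) ^ 3 - 1) * α ≤
        ((⌊v' * (X : ℝ) ^ 3⌋ : ℝ) - ⌊v * (X : ℝ) ^ 3⌋) * α :=
      mul_le_mul_of_nonneg_right (by linarith) hα0.le
    linarith
  refine le_trans ?_ k4
  refine le_trans ?_ (mul_le_mul k5 k6 (by linarith) (by linarith))
  have x23 : (X : ℝ) ^ 2 ≤ (X : ℝ) ^ 3 := pow_le_pow_right₀ hx (by norm_num)
  have c1 : (u' - u) * (X : ℝ) ^ 2 * α ≤ (X : ℝ) ^ 3 := by
    have d1 : (u' - u) * (X : ℝ) ^ 2 ≤ 1 * (X : ℝ) ^ 2 :=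
      mul_le_mul_of_nonneg_right (by linarith) hX2
    have d2 : (u' - u) * (X : ℝ) ^ 2 * α ≤ (u' - u) * (X : ℝ) ^ 2 :=
      mul_le_of_le_one_right (mul_nonneg (by linarith) hX2) hα1
    linarith
  have c2 : (v' - v) * (X : ℝ) ^ 3 * α ≤ 2 * (X : ℝ) ^ 3 := by
    have d1 : (v' - v) * (X : ℝ) ^ 3 ≤ 2 * (X : ℝ) ^ 3 :=
      mul_le_mul_of_nonneg_right (by linarith) hX3
    have d2 : (v' - v) * (X : ℝ) ^ 3 * α ≤ (v' - v) * (X : ℝ) ^ 3 :=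
      mul_le_of_le_one_right (mul_nonneg (by linarith) hX3) hα1
    linarith
  have e : ((u' - u) * (X : ℝ) ^ 2 * α - 2) * ((v' - v) * (X : ℝ) ^ 3 * α - 2) =
      (u' - u) * (v' - v) * (X : ℝ) ^ 5 * α ^ 2 - 2 * ((u' - u) * (X : ℝ) ^ 2 * α) -
        2 * ((v' - v) * (X : ℝ) ^ 3 * α) + 4 := by ring
  rw [e]
  linarith

/-- the number of good pairs in a part of the box -/
theorem good_geK {m : ℤ} (hm : 0 < m) (a0 b0 : ℤ) {u u' v v' : ℝ}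
    (hu0 : 0 ≤ u) (hu : u < u') (hu1 : u' ≤ 1) (hv0 : -1 ≤ v) (hv : v < v') (hv1 : v' ≤ 1)
    (K : ℕ) (hK : 4 ≤ K) (hK2 : 24 ≤ (u' - u) * (v' - v) * K)
    (hdv : ∀ a b : ℤ, m ∣ a - a0 → m ∣ b - b0 → ∀ p : ℕ, p.Prime → (p : ℤ) ^ 2 ∣ dsc a b →
      K < p ∧ IsCoprime m (p : ℤ)) :
    ∀ᶠ X : ℕ in atTop, 1 / 2 * ((u' - u) * (v' - v)) * (X : ℝ) ^ 5 * (m : ℝ)⁻¹ ^ 2 ≤
      ((((Bx X m a0 b0).filter fun q => InSub X u u' v v' q ∧
        Squarefree (dsc q.1 q.2)).card : ℝ)) := by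
  have hm1 : (1 : ℝ) ≤ m := by exact_mod_cast hm
  obtain ⟨n, rfl⟩ : ∃ n : ℕ, m = n := ⟨m.toNat, by omega⟩
  have hn : 0 < n := by exact_mod_cast hm
  have hnR : (1 : ℝ) ≤ (n : ℝ) := by exact_mod_cast hn
  obtain ⟨δ, hδ⟩ : ∃ δ : ℝ, δ = (u' - u) * (v' - v) := ⟨_, rfl⟩
  have hδ0 : 0 < δ := by
    rw [hδ]
    exact mul_pos (by linarith) (by linarith)
  obtain ⟨Y, hY1, hYK⟩ : ∃ Y : ℕ, 160 * (n : ℝ) ^ 2 / δ ≤ Y ∧ K ≤ Y := by
    obtain ⟨Y, hY⟩ := exists_nat_ge (160 * (n : ℝ) ^ 2 / δ)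
    refine ⟨max Y K, hY.trans ?_, le_max_right _ _⟩
    exact_mod_cast le_max_left _ _
  obtain ⟨α, hα⟩ : ∃ α : ℝ, α = (n : ℝ)⁻¹ := ⟨_, rfl⟩
  have hα0 : 0 < α := by rw [hα]; positivity
  have hnα : (n : ℝ) * α = 1 := by rw [hα]; field_simp
  have hK0 : (0 : ℝ) < K := by
    have : 0 < K := by omega
    exact_mod_cast this
  have hY0 : (0 : ℝ) < Y := by
    have : 0 < Y := by omega
    exact_mod_cast this
  have hYi : (20 : ℝ) / Y ≤ δ * α ^ 2 / 8 := by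
    rw [div_le_iff₀ hδ0] at hY1
    rw [div_le_div_iff₀ hY0 (by norm_num)]
    have e1 : 160 * (n : ℝ) ^ 2 * α ^ 2 = 160 := by
      have : 160 * (n : ℝ) ^ 2 * α ^ 2 = 160 * ((n : ℝ) * α) ^ 2 := by ring
      rw [this, hnα]
      norm_num
    have e2 := mul_le_mul_of_nonneg_right hY1 (show 0 ≤ α ^ 2 by positivity)
    linarith
  have hKi : 6 / (K : ℝ) ≤ δ / 4 := by
    rw [div_le_div_iff₀ hK0 (by norm_num)]
    rw [hδ]
    linarith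
  have hev1 := pi_small (ε := δ * α ^ 2 / 64) (by positivity)
  have hev2 : ∀ᶠ X : ℕ in atTop, (16 * (18 * (Y : ℝ) + 8)) / (δ * α ^ 2) ≤ (X : ℝ) ^ 2 := by
    have h1 : Tendsto (fun X : ℕ => (X : ℝ) ^ 2) atTop atTop :=
      (tendsto_pow_atTop (by norm_num)).comp tendsto_natCast_atTop_atTop
    exact h1.eventually_ge_atTop _
  have hev3 : ∀ᶠ X : ℕ in atTop, 2 / ((u' - u) * α) ≤ (X : ℝ) ^ 2 := by
    have h1 : Tendsto (fun X : ℕ => (X : ℝ) ^ 2) atTop atTop :=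
      (tendsto_pow_atTop (by norm_num)).comp tendsto_natCast_atTop_atTop
    exact h1.eventually_ge_atTop _
  have hev4 : ∀ᶠ X : ℕ in atTop, 2 / ((v' - v) * α) ≤ (X : ℝ) ^ 3 := by
    have h1 : Tendsto (fun X : ℕ => (X : ℝ) ^ 3) atTop atTop :=
      (tendsto_pow_atTop (by norm_num)).comp tendsto_natCast_atTop_atTop
    exact h1.eventually_ge_atTop _
  filter_upwards [hev1, hev2, hev3, hev4, eventually_ge_atTop 1] with X h1 h2 h2' h2'' hX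
  have hx : (1 : ℝ) ≤ X := by exact_mod_cast hX
  have hcast : (((n : ℤ)) : ℝ) = (n : ℝ) := by push_cast; rfl
  have h3 := card_sub hm hX a0 b0 hu0 hu.le hu1 hv0 hv.le hv1
    (by
      rw [div_le_iff₀ (mul_pos (by linarith) hα0)] at h2'
      rw [hcast, ← hα]
      linarith)
    (by
      rw [div_le_iff₀ (mul_pos (by linarith) hα0)] at h2''
      rw [hcast, ← hα]
      linarith)
  have h4 := bad_leK hm hX a0 b0 K Y hK hYK hdv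
  have h5 := Finset.card_filter_add_card_filter_not
    (s := (Bx X (n : ℤ) a0 b0).filter fun q => InSub X u u' v v' q)
    (fun q : ℤ × ℤ => Squarefree (dsc q.1 q.2))
  rw [Finset.filter_filter, Finset.filter_filter] at h5
  have h5' : ((Bx X (n : ℤ) a0 b0).filter fun q => InSub X u u' v v' q ∧
      ¬ Squarefree (dsc q.1 q.2)).card ≤
      ((Bx X (n : ℤ) a0 b0).filter fun q => ¬ Squarefree (dsc q.1 q.2)).card := by
    apply Finset.card_le_card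
    intro q hq
    rw [Finset.mem_filter] at hq ⊢
    exact ⟨hq.1, hq.2.2⟩
  have h6 : (((Bx X (n : ℤ) a0 b0).filter fun q => InSub X u u' v v' q).card : ℝ) ≤
      ((((Bx X (n : ℤ) a0 b0).filter fun q => InSub X u u' v v' q ∧
        Squarefree (dsc q.1 q.2)).card : ℝ)) +
      ((((Bx X (n : ℤ) a0 b0).filter fun q => ¬ Squarefree (dsc q.1 q.2)).card : ℝ)) := by
    have : ((Bx X (n : ℤ) a0 b0).filter fun q => InSub X u u' v v' q).card ≤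
      (((Bx X (n : ℤ) a0 b0).filter fun q => InSub X u u' v v' q ∧
        Squarefree (dsc q.1 q.2)).card) +
      (((Bx X (n : ℤ) a0 b0).filter fun q => ¬ Squarefree (dsc q.1 q.2)).card) := by omega
    exact_mod_cast this
  rw [hcast, ← hα] at h3 h4 ⊢
  rw [← hδ] at h3 ⊢
  have h7 : 20 * (X : ℝ) ^ 5 / Y ≤ (X : ℝ) ^ 5 * (δ * α ^ 2 / 8) := by
    have := mul_le_mul_of_nonneg_left hYi (show 0 ≤ (X : ℝ) ^ 5 by positivity)
    refine le_trans (le_of_eq ?_) this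
    ring
  have h7' : 6 * (X : ℝ) ^ 5 * α ^ 2 / K ≤ (X : ℝ) ^ 5 * (δ * α ^ 2 / 4) := by
    have := mul_le_mul_of_nonneg_left hKi (show 0 ≤ (X : ℝ) ^ 5 * α ^ 2 by positivity)
    refine le_trans (le_of_eq ?_) (this.trans (le_of_eq ?_))
    · ring
    · ring
  have h8 : 4 * (X : ℝ) ^ 2 * (Nat.primeCounting (6 * X ^ 3) : ℝ) ≤
      (X : ℝ) ^ 5 * (δ * α ^ 2 / 16) := by
    have := mul_le_mul_of_nonneg_left h1 (show 0 ≤ 4 * (X : ℝ) ^ 2 by positivity)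
    refine this.trans (le_of_eq ?_)
    ring
  have h9 : (18 * (Y : ℝ) + 8) * (X : ℝ) ^ 3 ≤ (X : ℝ) ^ 5 * (δ * α ^ 2 / 16) := by
    rw [div_le_iff₀ (by positivity)] at h2
    have := mul_le_mul_of_nonneg_right h2 (show 0 ≤ (X : ℝ) ^ 3 / 16 by positivity)
    have e1 : (16 * (18 * (Y : ℝ) + 8)) * ((X : ℝ) ^ 3 / 16) = (18 * (Y : ℝ) + 8) * (X : ℝ) ^ 3 := by
      ring
    have e2 : (X : ℝ) ^ 2 * (δ * α ^ 2) * ((X : ℝ) ^ 3 / 16) = (X : ℝ) ^ 5 * (δ * α ^ 2 / 16) := by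
      ring
    rw [e1, e2] at this
    exact this
  nlinarith [h3, h4, h6, h7, h7', h8, h9]

end Pool.Agent.U376.RC
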